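import Pool.Agent.N327.AC.Core

/-!
The norm of the gradient before a first singular time, in the abstract frame.
-/

set_option autoImplicit false
set_option linter.unusedSectionVars false

open MeasureTheory Set Filter Topology
open scoped InnerProductSpace

namespace Pool.Agent.N327.LE

open Pool.Agent.W795.TQ
open Pool.Agent.Y303.RA
open Pool.Agent.N327.AC
open H772R2.NSR (Frame prim_cont memLp_ii ae_deriv_of_prim)
open H772R2.NSG (ii_of_int)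
open Pool.Agent.W790.TQ (toSt sq_prim)

/-- Gronwall's inequality with the coefficient `ρ / (τ - s) + Λ` and the source
`φ + σ (τ - s) ^ (-q-1)`, `ρ < q` -/
theorem blow {ρ q σ c r τ I : ℝ} (hρ : 0 ≤ ρ) (hρq : ρ < q) (hσ : 0 ≤ σ) (hr : r < τ)
    (hc : 0 ≤ c) {f Λ φ : ℝ → ℝ} (hΛ0 : ∀ s, 0 ≤ Λ s) (hφ0 : ∀ s, 0 ≤ φ s)
    (hΛi : ∀ t ∈ Ioo r τ, IntegrableOn Λ (Ioc r t))
    (hΛ2 : ∀ t ∈ Ioo r τ, ∫ s in r..t, Λ s ≤ Real.log 2)
    (hφi : ∀ t ∈ Ioo r τ, IntegrableOn φ (Ioc r t))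
    (hφ2 : ∀ t ∈ Ioo r τ, ∫ s in r..t, φ s ≤ I)
    (hf : ∀ t ∈ Ioo r τ, IntegrableOn f (Ioc r t))
    (h : ∀ᵐ s ∂(volume.restrict (Ioo r τ)), f s ≤ (ρ / (τ - s) + Λ s) * (c + ∫ x in r..s, f x)
      + (φ s + σ * (τ - s) ^ (-q - 1))) :
    ∀ t ∈ Ioo r τ, c + ∫ x in r..t, f x ≤ 2 * (c + I) * (τ - r) ^ ρ * (τ - t) ^ (-ρ)
      + 2 * σ / (q - ρ) * (τ - t) ^ (-q) := by
  intro t ht
  have hqρ : 0 < q - ρ := by linarith
  set a := τ - r with ha
  have ha0 : 0 < a := by rw [ha]; linarith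
  have hp : 0 < τ - t := by linarith [ht.2]
  have hrt := ht.1.le
  have hss : Ioc r t ⊆ Ioo r τ := fun x hx => ⟨hx.1, hx.2.trans_lt ht.2⟩
  obtain ⟨l1, _⟩ := int_log (τ := τ) (γ := ρ) hrt ht.2
  obtain ⟨w1, _⟩ := int_pow (τ := τ) (p := -q - 1) (by linarith) hrt ht.2
  have l1' := (intervalIntegrable_iff_integrableOn_Ioc_of_le hrt).1 l1
  have w1' := (intervalIntegrable_iff_integrableOn_Ioc_of_le hrt).1 w1
  have g := gron (c := c) hrt (f := f) (a := fun s => ρ / (τ - s) + Λ s)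
    (σ := fun s => φ s + σ * (τ - s) ^ (-q - 1))
    ((intervalIntegrable_iff_integrableOn_Ioc_of_le hrt).2 (hf t ht))
    ((intervalIntegrable_iff_integrableOn_Ioc_of_le hrt).2 (l1'.add (hΛi t ht)))
    ((intervalIntegrable_iff_integrableOn_Ioc_of_le hrt).2 ((hφi t ht).add (w1'.const_mul σ)))
    (ae_mono (Measure.restrict_mono hss le_rfl) h)
  have hint : ∀ s ∈ Icc r t, ∫ x in r..s, (ρ / (τ - x) + Λ x)
      = ρ * (Real.log a - Real.log (τ - s)) + ∫ x in r..s, Λ x := by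
    intro s hs
    obtain ⟨i1, i2⟩ := int_log (τ := τ) (γ := ρ) hs.1 (hs.2.trans_lt ht.2)
    have i3 : IntervalIntegrable Λ volume r s :=
      (intervalIntegrable_iff_integrableOn_Ioc_of_le hs.1).2
        ((hΛi t ht).mono_set (Ioc_subset_Ioc_right hs.2))
    rw [intervalIntegral.integral_add i1 i3, i2]
  have hΛn : ∀ s, r ≤ s → 0 ≤ ∫ x in r..s, Λ x := fun s hs =>
    intervalIntegral.integral_nonneg hs fun x _ => hΛ0 x
  have hE1 : Real.exp (∫ x in r..t, (ρ / (τ - x) + Λ x)) ≤ 2 * (a ^ ρ * (τ - t) ^ (-ρ)) := by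
    have h1 := hΛ2 t ht
    rw [hint t ⟨hrt, le_rfl⟩, Real.rpow_def_of_pos ha0, Real.rpow_def_of_pos hp, ← Real.exp_add]
    have h2 : (2 : ℝ) = Real.exp (Real.log 2) := (Real.exp_log (by norm_num)).symm
    calc Real.exp (ρ * (Real.log a - Real.log (τ - t)) + ∫ x in r..t, Λ x)
        ≤ Real.exp (Real.log 2 + (Real.log a * ρ + Real.log (τ - t) * -ρ)) :=
          Real.exp_le_exp.2 (by nlinarith)
      _ = _ := by rw [Real.exp_add, ← h2]
  have hE2 : ∀ s ∈ Icc r t, Real.exp (-∫ x in r..s, (ρ / (τ - x) + Λ x))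
      ≤ a ^ (-ρ) * (τ - s) ^ ρ := by
    intro s hs
    have hps : 0 < τ - s := by linarith [hs.2, ht.2]
    rw [hint s hs, Real.rpow_def_of_pos ha0, Real.rpow_def_of_pos hps, ← Real.exp_add]
    have := hΛn s hs.1
    exact Real.exp_le_exp.2 (by nlinarith)
  have hE3 : ∀ s ∈ Icc r t, Real.exp (-∫ x in r..s, (ρ / (τ - x) + Λ x)) ≤ 1 := by
    intro s hs
    rw [Real.exp_le_one_iff, neg_nonpos]
    refine intervalIntegral.integral_nonneg hs.1 fun x hx => ?_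
    have hpx : 0 < τ - x := by linarith [hx.2, hs.2, ht.2]
    have := hΛ0 x
    positivity
  obtain ⟨p1, p2⟩ := int_pow (τ := τ) (p := ρ - q - 1) (by linarith) hrt ht.2
  have p1' := (intervalIntegrable_iff_integrableOn_Ioc_of_le hrt).1 p1
  have hI0 : 0 ≤ I := (intervalIntegral.integral_nonneg hrt fun s _ => hφ0 s).trans (hφ2 t ht)
  have hJ : ∫ s in r..t, Real.exp (-∫ x in r..s, (ρ / (τ - x) + Λ x))
      * (φ s + σ * (τ - s) ^ (-q - 1))
      ≤ I + σ * a ^ (-ρ) * ((τ - t) ^ (ρ - q) / (q - ρ)) := by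
    have i1 : IntegrableOn (fun s => φ s + σ * a ^ (-ρ) * (τ - s) ^ (ρ - q - 1)) (Ioc r t) :=
      (hφi t ht).add (p1'.const_mul _)
    have hs1 : ∫ s in Ioc r t, (φ s + σ * a ^ (-ρ) * (τ - s) ^ (ρ - q - 1))
        ≤ I + σ * a ^ (-ρ) * ((τ - t) ^ (ρ - q) / (q - ρ)) := by
      rw [integral_add (hφi t ht) (p1'.const_mul _), integral_const_mul]
      have h5 : ∫ s in Ioc r t, φ s ≤ I := by
        rw [← intervalIntegral.integral_of_le hrt]
        exact hφ2 t ht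
      have h6 : ∫ s in Ioc r t, (τ - s) ^ (ρ - q - 1) ≤ (τ - t) ^ (ρ - q) / (q - ρ) := by
        rw [← intervalIntegral.integral_of_le hrt]
        refine p2.trans (le_of_eq ?_)
        congr 1
        · congr 1; ring
        · ring
      have h7 : 0 ≤ σ * a ^ (-ρ) := by positivity
      gcongr
    rw [intervalIntegral.integral_of_le hrt]
    refine le_trans (integral_mono_of_nonneg ?_ i1 ?_) hs1
    · filter_upwards [ae_restrict_mem measurableSet_Ioc] with s hs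
      have hps : 0 < τ - s := by linarith [hs.2]
      have := Real.rpow_nonneg hps.le (-q - 1)
      have h8 := (Real.exp_pos (-∫ x in r..s, (ρ / (τ - x) + Λ x))).le
      have := hφ0 s
      simp only [Pi.zero_apply]
      positivity
    · filter_upwards [ae_restrict_mem measurableSet_Ioc] with s hs
      have hsI : s ∈ Icc r t := ⟨hs.1.le, hs.2⟩
      have hps : 0 < τ - s := by linarith [hs.2]
      have k1 := hE3 s hsI
      have k2 := hE2 s hsI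
      have e1 : (τ - s) ^ (ρ - q - 1) = (τ - s) ^ ρ * (τ - s) ^ (-q - 1) := by
        rw [← Real.rpow_add hps]; congr 1; ring
      have n1 : 0 ≤ φ s := hφ0 s
      have n2 : 0 ≤ σ * (τ - s) ^ (-q - 1) := by
        have := Real.rpow_nonneg hps.le (-q - 1)
        positivity
      rw [e1, mul_add]
      have m1 := mul_le_mul_of_nonneg_right k1 n1
      have m2 := mul_le_mul_of_nonneg_right k2 n2
      calc _ ≤ 1 * φ s + a ^ (-ρ) * (τ - s) ^ ρ * (σ * (τ - s) ^ (-q - 1)) := add_le_add m1 m2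
        _ = _ := by ring
  have hn : 0 ≤ c + (I + σ * a ^ (-ρ) * ((τ - t) ^ (ρ - q) / (q - ρ))) := by
    have := Real.rpow_nonneg hp.le (ρ - q)
    have := Real.rpow_nonneg ha0.le (-ρ)
    positivity
  refine g.trans ?_
  calc _ ≤ Real.exp (∫ x in r..t, (ρ / (τ - x) + Λ x))
        * (c + (I + σ * a ^ (-ρ) * ((τ - t) ^ (ρ - q) / (q - ρ)))) :=
        mul_le_mul_of_nonneg_left (by linarith) (Real.exp_pos _).le
    _ ≤ 2 * (a ^ ρ * (τ - t) ^ (-ρ))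
        * (c + (I + σ * a ^ (-ρ) * ((τ - t) ^ (ρ - q) / (q - ρ)))) :=
        mul_le_mul_of_nonneg_right hE1 hn
    _ = _ := by
        have q1 : a ^ ρ * a ^ (-ρ) = 1 := by
          rw [← Real.rpow_add ha0]; simp
        have q2 : (τ - t) ^ (-ρ) * (τ - t) ^ (ρ - q) = (τ - t) ^ (-q) := by
          rw [← Real.rpow_add hp]; congr 1; ring
        calc _ = 2 * (c + I) * a ^ ρ * (τ - t) ^ (-ρ)
            + (a ^ ρ * a ^ (-ρ)) * ((τ - t) ^ (-ρ) * (τ - t) ^ (ρ - q)) * (2 * σ / (q - ρ)) := by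
              ring
          _ = _ := by rw [q1, q2]; ring

/-- an integrable function has a small integral near the end point -/
theorem small_tail {t1 τ : ℝ} (ht1 : t1 < τ) {Λ : ℝ → ℝ} (hΛ0 : ∀ t, 0 ≤ Λ t)
    (hΛi : IntegrableOn Λ (Ioo t1 τ)) {ε : ℝ} (hε : 0 < ε) :
    ∃ s0 ∈ Ico t1 τ, ∀ r ∈ Ioo s0 τ, ∀ t ∈ Ioo r τ, ∫ s in r..t, Λ s ≤ ε := by
  have hII : IntervalIntegrable Λ volume t1 τ := by
    rw [intervalIntegrable_iff_integrableOn_Ioo_of_le ht1.le]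
    exact hΛi
  have hcont := intervalIntegral.continuousOn_primitive_interval
    (by rwa [uIcc_of_le ht1.le, integrableOn_Icc_iff_integrableOn_Ioo] :
      IntegrableOn Λ (uIcc t1 τ) volume)
  rw [uIcc_of_le ht1.le] at hcont
  have hlim := (hcont τ ⟨ht1.le, le_rfl⟩)
  have hev : ∀ᶠ x in 𝓝[Icc t1 τ] τ, (∫ s in t1..τ, Λ s) - ε
      < ∫ s in t1..x, Λ s := hlim.eventually (lt_mem_nhds (by linarith))
  rw [eventually_nhdsWithin_iff] at hev
  obtain ⟨δ, hδ, hball⟩ := Metric.eventually_nhds_iff.1 hev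
  refine ⟨max t1 (τ - δ / 2), ⟨le_max_left _ _, max_lt ht1 (by linarith)⟩, ?_⟩
  intro r hr t ht
  have hr0 : t1 < r := (le_max_left _ _).trans_lt hr.1
  have hrε : τ - δ / 2 < r := (le_max_right _ _).trans_lt hr.1
  have h1 := hball (y := r) (by
    rw [Real.dist_eq, abs_of_neg (by linarith [hr.2])]
    linarith) ⟨hr0.le, hr.2.le⟩
  have hi1 : IntervalIntegrable Λ volume t1 r := hII.mono_set (by
    rw [uIcc_of_le hr0.le, uIcc_of_le ht1.le]
    exact Icc_subset_Icc_right hr.2.le)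
  have hi2 : IntervalIntegrable Λ volume r τ := hII.mono_set (by
    rw [uIcc_of_le hr.2.le, uIcc_of_le ht1.le]
    exact Icc_subset_Icc_left hr0.le)
  have h2 := intervalIntegral.integral_add_adjacent_intervals hi1 hi2
  have h3 : ∫ s in r..t, Λ s ≤ ∫ s in r..τ, Λ s := by
    rw [intervalIntegral.integral_of_le ht.1.le, intervalIntegral.integral_of_le hr.2.le]
    refine setIntegral_mono_set ?_ (Eventually.of_forall hΛ0)
      (Ioc_subset_Ioc_right ht.2.le).eventuallyLE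
    exact (intervalIntegrable_iff_integrableOn_Ioc_of_le hr.2.le).1 hi2
  linarith

variable {H K : Type} [NormedAddCommGroup H] [InnerProductSpace ℝ H] [CompleteSpace H]
  [NormedAddCommGroup K] [InnerProductSpace ℝ K] [CompleteSpace K]
  {W : Submodule ℝ (H × K)} {m : H → K} {C ν T τ : ℝ} {F F1 : ℝ → K} {v v1 : ℝ → H}
  {z z1 : ℝ → K}

/-- the equation almost everywhere up to the singular time -/
theorem weak_ae (Fr : Frame W m C) (hτ : 0 < τ) (hτT : τ ≤ T) (hF : FH T F F1)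
    (hS : ∀ t ∈ Ioo 0 τ, Str W m ν t F v v1 z z1) :
    ∀ᵐ t ∂(volume.restrict (Ioo 0 τ)), (v1 t, z1 t) ∈ W ∧
      ∀ p ∈ W, ⟪v1 t, p.1⟫_ℝ = ⟪F t - ν • z t + m (v t), p.2⟫_ℝ := by
  have h1 : ∀ n : ℕ, ∃ t, t ∈ Ioo 0 τ ∧ τ - 1 / ((n : ℝ) + 1) < t := fun n => by
    have hn : (0 : ℝ) < 1 / ((n : ℝ) + 1) := by positivity
    obtain ⟨t, ht1, ht2⟩ := exists_between
      (max_lt (by linarith : τ - 1 / ((n : ℝ) + 1) < τ) hτ)
    exact ⟨t, ⟨(le_max_right _ _).trans_lt ht1, ht2⟩, (le_max_left _ _).trans_lt ht1⟩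
  choose t ht1 ht2 using h1
  have hsub : Ioo 0 τ ⊆ ⋃ n, Ioc 0 (t n) := by
    intro s hs
    obtain ⟨n, hn⟩ := exists_nat_one_div_lt (show 0 < τ - s by linarith [hs.2])
    exact mem_iUnion.2 ⟨n, hs.1, by linarith [ht2 n]⟩
  refine ae_mono (Measure.restrict_mono hsub le_rfl) ?_
  refine (ae_restrict_iUnion_iff (fun n => Ioc 0 (t n)) (fun s => (v1 s, z1 s) ∈ W ∧
      ∀ p ∈ W, ⟪v1 s, p.1⟫_ℝ = ⟪F s - ν • z s + m (v s), p.2⟫_ℝ)).2 ?_
  intro n
  have S := hS _ (ht1 n)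
  have hFn : FH (t n) F F1 :=
    ⟨hF.memLp.mono_measure (Measure.restrict_mono (Ioc_subset_Ioc_right
      ((ht1 n).2.le.trans hτT)) le_rfl),
      fun a b ha hab hb => hF.prim a b ha hab (hb.trans ((ht1 n).2.le.trans hτT))⟩
  obtain ⟨Z, St1⟩ := toSt hFn S
  filter_upwards [S.mem1, St1.deriv_weak Fr (ht1 n).1] with s k1 k2
  exact ⟨k1, k2⟩

/-- Before a first singular time the norm of the gradient is not bounded by a small multiple of
`(τ - t)^{-1/4}`. -/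
theorem rate_grad (Fr : Frame W m C) (hm : Hom W m) (hν : 0 < ν) (hτ : 0 < τ) (hτT : τ ≤ T)
    (hF : FH T F F1) (hS : ∀ t ∈ Ioo 0 τ, Str W m ν t F v v1 z z1) {κ₀ : ℝ} (hκ : 0 < κ₀)
    (hrate : ∀ t0 < τ, ¬ ∀ᵐ t ∂(volume.restrict (Ioo t0 τ)),
      ‖v1 t‖ ≤ κ₀ * ν ^ (5 / 4 : ℝ) * (τ - t) ^ (-(3 / 4) : ℝ))
    {c : ℝ} (hU : Univ W m c) {t0 : ℝ} (ht0 : t0 < τ)
    (hyp : ∀ t ∈ Ioo t0 τ, 4 * (c ^ 4 * ‖z t‖ ^ 4) * (τ - t) ≤ ν ^ 3) : False := by
  have hc := hU.c0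
  refine core Fr hm hν hτ hτT hF hS hκ hrate (δ := 1 / 4) (γ := 1 / 4) (σ := 0) (t1 := max t0 0)
    (by norm_num) (by norm_num) (by norm_num) le_rfl (by
      have := Real.rpow_pos_of_pos hν (5 / 2 : ℝ)
      have : 0 ≤ κ₀ ^ 2 * ν ^ (5 / 2 : ℝ) * (3 / 2 - 2 * (1 / 4)) := by norm_num; positivity
      linarith) (max_lt ht0 hτ) (Λ := fun _ => 0) (fun _ => le_rfl)
    (integrable_zero _ _ _) ?_
  filter_upwards [ae_mono (Measure.restrict_mono (Ioo_subset_Ioo_left (le_max_right t0 0)) le_rfl)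
    (weak_ae Fr hτ hτT hF hS), ae_restrict_mem measurableSet_Ioo] with t ht1 ht2
  have hp : 0 < τ - t := by linarith [ht2.2]
  have h1 := hyp t ⟨(le_max_left _ _).trans_lt ht2.1, ht2.2⟩
  have h2 := hU.quart _ ht1.1
  simp only at h2
  have h3 : -⟪m (v1 t), z t⟫_ℝ ≤ ‖m (v1 t)‖ * ‖z t‖ := by
    have := abs_real_inner_le_norm (m (v1 t)) (z t)
    linarith [neg_abs_le ⟪m (v1 t), z t⟫_ℝ]
  set A := Real.sqrt ‖v1 t‖ with hA
  set B := Real.sqrt ‖z1 t‖ with hB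
  have hA0 : 0 ≤ A := Real.sqrt_nonneg _
  have hB0 : 0 ≤ B := Real.sqrt_nonneg _
  have eA : ‖v1 t‖ = A ^ 2 := (Real.sq_sqrt (norm_nonneg _)).symm
  have eB : ‖z1 t‖ = B ^ 2 := (Real.sq_sqrt (norm_nonneg _)).symm
  set Z := ‖z t‖ with hZ
  have hZ0 : 0 ≤ Z := norm_nonneg _
  have h4 : ‖m (v1 t)‖ * Z ≤ c * (A * B ^ 3) * Z := mul_le_mul_of_nonneg_right h2 hZ0
  -- Young's inequality with the exponents 4 and 4/3
  have h5 : c * (A * B ^ 3) * Z ≤ 3 / 4 * (ν * B ^ 4) + 1 / 4 * (c ^ 4 * Z ^ 4 * A ^ 4 / ν ^ 3) := by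
    have key := Real.geom_mean_le_arith_mean2_weighted (w₁ := 3 / 4) (w₂ := 1 / 4)
      (p₁ := ν * B ^ 4) (p₂ := c ^ 4 * Z ^ 4 * A ^ 4 / ν ^ 3) (by norm_num) (by norm_num)
      (by positivity) (by positivity) (by norm_num)
    refine le_trans (le_of_eq ?_) key
    have e1 : (ν * B ^ 4) ^ (3 / 4 : ℝ) = ν ^ (3 / 4 : ℝ) * B ^ 3 := by
      rw [Real.mul_rpow hν.le (by positivity), ← Real.rpow_natCast B 4, ← Real.rpow_mul hB0,
        ← Real.rpow_natCast B 3]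
      norm_num
    have e2 : (c ^ 4 * Z ^ 4 * A ^ 4 / ν ^ 3) ^ (1 / 4 : ℝ) = c * Z * A * ν ^ (-(3 / 4) : ℝ) := by
      have e3 : c ^ 4 * Z ^ 4 * A ^ 4 / ν ^ 3 = (c * Z * A * ν ^ (-(3 / 4) : ℝ)) ^ 4 := by
        rw [mul_pow, mul_pow, mul_pow, ← Real.rpow_natCast (ν ^ (-(3 / 4) : ℝ)),
          ← Real.rpow_mul hν.le]
        have : (-(3 / 4) : ℝ) * ((4 : ℕ) : ℝ) = -((3 : ℕ) : ℝ) := by norm_num
        rw [this, Real.rpow_neg hν.le, Real.rpow_natCast]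
        field_simp
      have hn : 0 ≤ c * Z * A * ν ^ (-(3 / 4) : ℝ) := by positivity
      rw [e3, ← Real.rpow_natCast, ← Real.rpow_mul hn]
      norm_num
    rw [e1, e2]
    have e4 : ν ^ (3 / 4 : ℝ) * ν ^ (-(3 / 4) : ℝ) = 1 := by
      rw [← Real.rpow_add hν]; simp
    calc c * (A * B ^ 3) * Z = (ν ^ (3 / 4 : ℝ) * ν ^ (-(3 / 4) : ℝ)) * (c * (A * B ^ 3) * Z) := by
          rw [e4, one_mul]
      _ = _ := by ring
  have h6 : 1 / 4 * (c ^ 4 * Z ^ 4 * A ^ 4 / ν ^ 3) ≤ 1 / 4 / (τ - t) * A ^ 4 := by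
    have h7 : c ^ 4 * Z ^ 4 / ν ^ 3 ≤ 1 / (τ - t) := by
      rw [div_le_div_iff₀ (by positivity) hp]
      nlinarith [h1, mul_nonneg (mul_nonneg (pow_nonneg hc.le 4) (pow_nonneg hZ0 4)) hp.le]
    have h8 := mul_le_mul_of_nonneg_right h7 (pow_nonneg hA0 4)
    calc 1 / 4 * (c ^ 4 * Z ^ 4 * A ^ 4 / ν ^ 3) = 1 / 4 * (c ^ 4 * Z ^ 4 / ν ^ 3 * A ^ 4) := by ring
      _ ≤ 1 / 4 * (1 / (τ - t) * A ^ 4) := by linarith
      _ = _ := by ring
  rw [eA, eB]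
  calc -⟪m (v1 t), z t⟫_ℝ ≤ 3 / 4 * (ν * B ^ 4) + 1 / 4 / (τ - t) * A ^ 4 := by linarith
    _ = _ := by ring

end Pool.Agent.N327.LE
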