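import Pool.Agent.N327.AD.Space

/-!
The convective form of the nonlinearity, and gradient fields.
-/

set_option autoImplicit false
set_option linter.unusedSectionVars false

open MeasureTheory Set Filter Topology
open scoped InnerProductSpace ENNReal ContDiff NNReal

namespace Pool.Agent.N327.LE

open H772R2.NS Pool.Agent.TH301.EQ
open H772R2.NSR (Frame)
open Pool.Agent.Y303.RA (tens_smul)

variable {Ω : Set E3}

/-- the product of a matrix and a vector -/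
noncomputable def mv (A : M3) (a : E3) : E3 := WithLp.toLp 2 fun i => ∑ j, A (i, j) * a j

theorem inner_mv (w a : E3) (A : M3) :
    ⟪w, mv A a⟫_ℝ = (1 / 2) * ⟪tens (a + w) - tens a - tens w - alt a w, A⟫_ℝ := by
  rw [inner_M3, inner_E3]
  simp only [Fin.sum_univ_three, alt_apply, tens_apply, mv, PiLp.sub_apply, PiLp.add_apply]
  ring

/-- the convective form of the trilinear form -/
theorem tri_conv {C : ℝ} (Fr : Frame (graphW Ω) (tensL (Ω := Ω)) C) (hΩ : MeasurableSet Ω)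
    {p q : L2V Ω × L2M Ω} (hp : p ∈ graphW Ω) (hq : q ∈ graphW Ω) :
    Integrable (fun x => ⟪q.1 x, mv (p.2 x) (p.1 x)⟫_ℝ) (volume.restrict Ω) ∧
    ⟪tensL p.1, q.2⟫_ℝ = -∫ x in Ω, ⟪q.1 x, mv (p.2 x) (p.1 x)⟫_ℝ := by
  have hpq := (graphW Ω).add_mem hp hq
  set S : L2M Ω := tensL (p + q).1 - tensL p.1 - tensL q.1 - altL p.1 q.1 with hS
  have e : (fun x => (1 / 2) * ⟪(S : E3 → M3) x, (p.2 : E3 → M3) x⟫_ℝ)
      =ᵐ[volume.restrict Ω] fun x => ⟪q.1 x, mv (p.2 x) (p.1 x)⟫_ℝ := by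
    filter_upwards [tensL_coe hΩ hpq, tensL_coe hΩ hp, tensL_coe hΩ hq, altL_coe hΩ hp hq,
      Lp.coeFn_sub (tensL (p + q).1 - tensL p.1 - tensL q.1) (altL p.1 q.1),
      Lp.coeFn_sub (tensL (p + q).1 - tensL p.1) (tensL q.1),
      Lp.coeFn_sub (tensL (p + q).1) (tensL p.1), Lp.coeFn_add p.1 q.1]
      with x h1 h2 h3 h4 h5 h6 h7 h8
    have h9 : (p + q).1 = p.1 + q.1 := rfl
    rw [hS, h5, Pi.sub_apply, h6, Pi.sub_apply, h7, Pi.sub_apply, h1, h2, h3, h4, h9, h8,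
      Pi.add_apply, inner_mv]
  have i1 := ((L2.integrable_inner (𝕜 := ℝ) S p.2).const_mul (1 / 2)).congr e
  refine ⟨i1, ?_⟩
  have e1 : ∫ x in Ω, ⟪q.1 x, mv (p.2 x) (p.1 x)⟫_ℝ = (1 / 2) * ⟪S, p.2⟫_ℝ := by
    rw [← integral_congr_ae e, integral_const_mul, L2.inner_def]
  have a1 := Fr.ortho _ hpq
  have a2 := Fr.ortho _ hp
  have a3 := Fr.anti _ hpq _ hp
  have a4 := identity hΩ hp hq
  have b1 : (p + q).1 - p.1 = q.1 := by
    show p.1 + q.1 - p.1 = q.1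
    abel
  have b2 : (p + q).2 - p.2 = q.2 := by
    show p.2 + q.2 - p.2 = q.2
    abel
  have b3 : (p + q).2 = p.2 + q.2 := rfl
  rw [b1, b2, inner_sub_left] at a3
  rw [b3, inner_add_right] at a1
  rw [e1, hS, inner_sub_left, inner_sub_left, inner_sub_left, ← a4]
  linarith

/-- gradient fields are orthogonal to `H¹_{0,σ}` -/
theorem grad_orth (hΩ : MeasurableSet Ω) {P : E3 → E3}
    (hP : MemLp P (6 / 5) (volume.restrict Ω))
    (h0 : ∀ ψ : E3 → E3, IsTest Ω ψ → ∫ x in Ω, ⟪P x, ψ x⟫_ℝ = 0)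
    {p : L2V Ω × L2M Ω} (hp : p ∈ graphW Ω) :
    Integrable (fun x => ⟪P x, p.1 x⟫_ℝ) (volume.restrict Ω) ∧
    ∫ x in Ω, ⟪P x, p.1 x⟫_ℝ = 0 := by
  have hconj : ENNReal.HolderTriple (6 / 5) 6 1 := ⟨by
    rw [ENNReal.inv_div (by simp) (by simp), inv_one, ← ENNReal.div_self (a := 6) (by simp) (by simp),
      ← one_div, ← ENNReal.add_div]
    norm_num⟩
  -- the pairing
  have hint : ∀ v : E3 → E3, MemLp v 6 (volume.restrict Ω) →
      Integrable (fun x => ⟪P x, v x⟫_ℝ) (volume.restrict Ω) := by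
    intro v hv
    have h1 : Integrable (fun x => ‖P x‖ * ‖v x‖) (volume.restrict Ω) := by
      exact hP.norm.integrable_mul hv.norm
    refine h1.mono' (hP.aestronglyMeasurable.inner hv.aestronglyMeasurable) ?_
    exact Eventually.of_forall fun x => norm_inner_le_norm _ _
  have hbd : ∀ v : E3 → E3, MemLp v 6 (volume.restrict Ω) →
      ‖∫ x in Ω, ⟪P x, v x⟫_ℝ‖ₑ ≤ eLpNorm P (6 / 5) (volume.restrict Ω)
        * eLpNorm v 6 (volume.restrict Ω) := by
    intro v hv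
    refine (enorm_integral_le_lintegral_enorm _).trans ?_
    rw [← eLpNorm_one_eq_lintegral_enorm]
    have h2 := eLpNorm_le_eLpNorm_mul_eLpNorm'_of_norm (p := 6 / 5) (q := 6) (r := 1)
      hP.aestronglyMeasurable hv.aestronglyMeasurable (fun a b => ⟪a, b⟫_ℝ) 1
      (Eventually.of_forall (fun x => by
        simpa using norm_inner_le_norm (𝕜 := ℝ) (P x) (v x))) (μ := volume.restrict Ω)
    simpa using h2
  have hm6 : ∀ q ∈ graphW Ω, MemLp q.1 6 (volume.restrict Ω) := fun q hq =>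
    ⟨Lp.aestronglyMeasurable _, (six_le hΩ hq).trans_lt (ENNReal.mul_lt_top (by simp) (by simp))⟩
  refine ⟨hint _ (hm6 p hp), ?_⟩
  have hp' : p ∈ closure (preW Ω : Set (L2V Ω × L2M Ω)) := by
    have := hp
    unfold graphW at this
    rwa [← SetLike.mem_coe, Submodule.topologicalClosure_coe] at this
  obtain ⟨q, hq, hlim⟩ := mem_closure_iff_seq_limit.mp hp'
  have hqW : ∀ n, q n ∈ graphW Ω := fun n => Submodule.le_topologicalClosure _ (hq n)
  have hz : ∀ n, ∫ x in Ω, ⟪P x, (q n).1 x⟫_ℝ = 0 := by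
    intro n
    obtain ⟨φ, k1, k2, k3⟩ := hq n
    rw [← h0 φ k1]
    refine integral_congr_ae ?_
    filter_upwards [k2] with x hx
    rw [hx]
  have hd : ∀ n, ‖∫ x in Ω, ⟪P x, p.1 x⟫_ℝ‖ₑ ≤ eLpNorm P (6 / 5) (volume.restrict Ω)
      * ((CS : ℝ≥0∞) * ‖(p - q n).2‖ₑ) := by
    intro n
    have hsub := (graphW Ω).sub_mem hp (hqW n)
    have e1 : ∫ x in Ω, ⟪P x, p.1 x⟫_ℝ = ∫ x in Ω, ⟪P x, (p - q n).1 x⟫_ℝ := by
      rw [← sub_zero (∫ x in Ω, ⟪P x, p.1 x⟫_ℝ), ← hz n,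
        ← integral_sub (hint _ (hm6 p hp)) (hint _ (hm6 _ (hqW n)))]
      refine integral_congr_ae ?_
      filter_upwards [Lp.coeFn_sub p.1 (q n).1] with x hx
      have : (p - q n).1 = p.1 - (q n).1 := rfl
      rw [this, hx, Pi.sub_apply, inner_sub_right]
    rw [e1]
    refine (hbd _ (hm6 _ hsub)).trans ?_
    gcongr
    exact six_le hΩ hsub
  have hl : Tendsto (fun n => eLpNorm P (6 / 5) (volume.restrict Ω)
      * ((CS : ℝ≥0∞) * ‖(p - q n).2‖ₑ)) atTop (𝓝 0) := by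
    have h1 : Tendsto (fun n => ‖(p - q n).2‖ₑ) atTop (𝓝 0) := by
      have h2 : Tendsto (fun n => (p - q n).2) atTop (𝓝 (p - p).2) :=
        (continuous_snd.tendsto _).comp (tendsto_const_nhds.sub hlim)
      have h3 : Tendsto (fun n => ‖(p - q n).2‖ₑ) atTop (𝓝 ‖(p - p).2‖ₑ) :=
        (continuous_enorm.tendsto (p - p).2).comp h2
      rw [sub_self] at h3
      simpa using h3
    have h2 : Tendsto (fun n => (CS : ℝ≥0∞) * ‖(p - q n).2‖ₑ) atTop (𝓝 ((CS : ℝ≥0∞) * 0)) :=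
      ENNReal.Tendsto.const_mul h1 (Or.inr (by simp))
    have h3 := ENNReal.Tendsto.const_mul (a := eLpNorm P (6 / 5) (volume.restrict Ω)) h2
      (Or.inr hP.eLpNorm_ne_top)
    simpa using h3
  have := ge_of_tendsto' hl hd
  simpa using this

end Pool.Agent.N327.LE
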