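import Pool.Agent.N327.LE.Abs

/-!
The energy balance of the gradient before a first singular time.
-/

set_option autoImplicit false
set_option linter.unusedSectionVars false

open MeasureTheory Set Filter Topology
open scoped InnerProductSpace

namespace Pool.Agent.N327.LE

open Pool.Agent.W795.TQ
open Pool.Agent.Y303.RA
open Pool.Agent.N327.AC
open H772R2.NSR (Frame prim_cont memLp_ii ae_deriv_of_prim)
open H772R2.NSG (ii_of_int int_inner)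
open Pool.Agent.W790.TQ (toSt sq_prim)

variable {H K : Type} [NormedAddCommGroup H] [InnerProductSpace ℝ H] [CompleteSpace H]
  [NormedAddCommGroup K] [InnerProductSpace ℝ K] [CompleteSpace K]
  {W : Submodule ℝ (H × K)} {m : H → K} {C ν T τ : ℝ} {F F1 : ℝ → K} {v v1 : ℝ → H}
  {z z1 : ℝ → K}

/-- **The criterion for the gradient in the abstract frame.** -/
theorem core2 (Fr : Frame W m C) (hm : Hom W m) (hν : 0 < ν) (hτ : 0 < τ) (hτT : τ ≤ T)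
    (hF : FH T F F1) (hS : ∀ t ∈ Ioo 0 τ, Str W m ν t F v v1 z z1) {κ₀ : ℝ} (hκ : 0 < κ₀)
    (hrate : ∀ t0 < τ, ¬ ∀ᵐ t ∂(volume.restrict (Ioo t0 τ)),
      ‖v1 t‖ ≤ κ₀ * ν ^ (5 / 4 : ℝ) * (τ - t) ^ (-(3 / 4) : ℝ))
    {c : ℝ} (hU : Univ W m c) {k σ t1 : ℝ} (hk0 : 0 ≤ k) (hk1 : k < 1) (hσ0 : 0 ≤ σ)
    (hσ : 96 * c ^ 2 * σ ≤ (1 - k) * ν ^ (5 / 2 : ℝ)) (ht1 : t1 < τ) {Λ : ℝ → ℝ}
    (hΛ0 : ∀ t, 0 ≤ Λ t) (hΛi : IntegrableOn Λ (Ioo t1 τ))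
    (hyp : ∀ᵐ t ∂(volume.restrict (Ioo t1 τ)), -‖v1 t‖ ^ 2 + ⟪m (v t), z1 t⟫_ℝ ≤
      (k * ν / (4 * (τ - t)) + Λ t) * ‖z t‖ ^ 2 + σ * (τ - t) ^ (-(3 / 2) : ℝ)) : False := by
  have hT : 0 < T := hτ.trans_le hτT
  have hc := hU.c0
  set η := (1 - k) / 2 with hη
  have hη0 : 0 < η := by rw [hη]; linarith
  have hη1 : η ≤ 1 / 2 := by rw [hη]; linarith
  set ρ := (1 + η) * k / 2 with hρ
  have hρ0 : 0 ≤ ρ := by positivity
  have hρ1 : (1 - k) / 4 ≤ 1 / 2 - ρ := by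
    rw [hρ, hη]; nlinarith
  have hρ2 : ρ < 1 / 2 := by linarith
  -- the force
  have hFc : ContinuousOn F (Icc 0 T) := prim_cont hF.memLp hF.prim
  obtain ⟨Φ, hΦ⟩ : ∃ Φ, ∀ s ∈ Icc 0 T, ‖F s‖ ≤ Φ := by
    obtain ⟨Z, hZ⟩ := (isCompact_Icc.image_of_continuousOn hFc).isBounded.exists_norm_le
    exact ⟨Z, fun s hs => hZ _ ⟨s, hs, rfl⟩⟩
  have hΦ0 : 0 ≤ Φ := (norm_nonneg _).trans (hΦ 0 ⟨le_rfl, hT.le⟩)
  have hF2 : Integrable (fun s => ‖F1 s‖ ^ 2) (volume.restrict (Ioc 0 T)) :=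
    (memLp_two_iff_integrable_sq_norm hF.memLp.aestronglyMeasurable).mp hF.memLp
  set M := Φ ^ 2 / (η * ν ^ 2) with hM
  have hM0 : 0 ≤ M := by positivity
  -- the modified gradient
  set ζ : ℝ → K := fun s => z s - ν⁻¹ • F s with hζ
  set ζ1 : ℝ → K := fun s => z1 s - ν⁻¹ • F1 s with hζ1
  have hz : ∀ s ∈ Icc 0 T, ‖z s‖ ^ 2 ≤ (1 + η) * (‖ζ s‖ ^ 2 + M) := by
    intro s hs
    have h1 : ‖z s‖ ≤ ‖ζ s‖ + ν⁻¹ * Φ := by
      have e : z s = ζ s + ν⁻¹ • F s := by rw [hζ]; simp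
      calc ‖z s‖ = ‖ζ s + ν⁻¹ • F s‖ := by rw [← e]
        _ ≤ ‖ζ s‖ + ‖ν⁻¹ • F s‖ := norm_add_le _ _
        _ ≤ _ := by
          rw [norm_smul, Real.norm_of_nonneg (by positivity)]
          have := hΦ s hs
          gcongr
    have h2 : ‖z s‖ ^ 2 ≤ (‖ζ s‖ + ν⁻¹ * Φ) ^ 2 := pow_le_pow_left₀ (norm_nonneg _) h1 2
    refine h2.trans ?_
    have h3 : (1 + η) * (‖ζ s‖ ^ 2 + M) - (‖ζ s‖ + ν⁻¹ * Φ) ^ 2
        = (η * ‖ζ s‖ - ν⁻¹ * Φ) ^ 2 / η := by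
      rw [hM]; field_simp; ring
    have h4 : 0 ≤ (η * ‖ζ s‖ - ν⁻¹ * Φ) ^ 2 / η := by positivity
    linarith
  set Λ' : ℝ → ℝ := fun s => 2 / ν * (1 + η) * Λ s + 1 / ν with hΛ'
  have ht2 : max t1 0 < τ := max_lt ht1 hτ
  have hΛ'i : IntegrableOn Λ' (Ioo (max t1 0) τ) :=
    ((hΛi.mono_set (Ioo_subset_Ioo_left (le_max_left _ _))).const_mul _).add
      (integrable_const _)
  have hΛ'0 : ∀ s, 0 ≤ Λ' s := fun s => by
    have := hΛ0 s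
    simp only [hΛ']
    positivity
  obtain ⟨s0, hs0, hs0I⟩ := small_tail ht2 hΛ'0 hΛ'i
    (Real.log_pos (by norm_num : (1 : ℝ) < 2))
  obtain ⟨r, hr⟩ := exists_between hs0.2
  have hr0 : 0 < r := ((le_max_right t1 0).trans hs0.1).trans_lt hr.1
  have hrt1 : max t1 0 < r := hs0.1.trans_lt hr.1
  -- integrability and the primitive
  have hstr : ∀ t ∈ Ioo r τ, IntegrableOn (fun s => 2 * ⟪ζ1 s, ζ s⟫_ℝ) (Ioc r t) ∧
      ∀ s ∈ Icc r t, ‖ζ s‖ ^ 2 - ‖ζ r‖ ^ 2 = ∫ x in r..s, 2 * ⟪ζ1 x, ζ x⟫_ℝ := by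
    intro t ht
    have ht0 : t ∈ Ioo 0 τ := ⟨hr0.trans ht.1, ht.2⟩
    have htT : t ≤ T := ht.2.le.trans hτT
    have S := hS t ht0
    have hF1m : MemLp F1 2 (volume.restrict (Ioc 0 t)) :=
      hF.memLp.mono_measure (Measure.restrict_mono (Ioc_subset_Ioc_right htT) le_rfl)
    have hm1 : MemLp ζ1 2 (volume.restrict (Ioc 0 t)) := S.z1m.sub (hF1m.const_smul ν⁻¹)
    have hp1 : ∀ a b, 0 ≤ a → a ≤ b → b ≤ t → ζ b - ζ a = ∫ s in a..b, ζ1 s := by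
      intro a b ha hab hb
      have i1 : IntervalIntegrable z1 volume a b :=
        ii_of_int (S.z1m.integrable (by norm_num)) ha hab hb
      have i2 : IntervalIntegrable F1 volume a b :=
        ii_of_int (hF1m.integrable (by norm_num)) ha hab hb
      have i3 : IntervalIntegrable (fun s => ν⁻¹ • F1 s) volume a b := i2.smul ν⁻¹
      rw [hζ, hζ1]
      simp only
      rw [intervalIntegral.integral_sub i1 i3, intervalIntegral.integral_smul,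
        ← S.pz a b ha hab hb, ← hF.prim a b ha hab (hb.trans htT), smul_sub]
      abel
    have hc1 : ContinuousOn ζ (Icc 0 t) := prim_cont hm1 hp1
    have hm2 : MemLp ζ 2 (volume.restrict (Ioc 0 t)) := by
      obtain ⟨Z, hZ⟩ := (isCompact_Icc.image_of_continuousOn hc1).isBounded.exists_norm_le
      refine MemLp.of_bound ((hc1.mono Ioc_subset_Icc_self).aestronglyMeasurable
        measurableSet_Ioc) Z ?_
      filter_upwards [ae_restrict_mem measurableSet_Ioc] with s hs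
      exact hZ _ ⟨s, Ioc_subset_Icc_self hs, rfl⟩
    have hi := (int_inner hm1 hm2).const_mul 2
    refine ⟨hi.mono_measure (Measure.restrict_mono (Ioc_subset_Ioc_left hr0.le) le_rfl), ?_⟩
    intro s hs
    exact sq_prim hm1 hp1 hr0.le hs.1 hs.2
  set c0 := ‖ζ r‖ ^ 2 + M with hc0
  have hc00 : 0 ≤ c0 := by positivity
  have hY : ∀ t ∈ Ico r τ, c0 + ∫ x in r..t, 2 * ⟪ζ1 x, ζ x⟫_ℝ = ‖ζ t‖ ^ 2 + M := by
    intro t ht
    obtain ⟨t', ht'1, ht'2⟩ := exists_between ht.2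
    have := (hstr t' ⟨ht.1.trans_lt ht'1, ht'2⟩).2 t ⟨ht.1, ht'1.le⟩
    rw [← this, hc0]; ring
  set I := (∫ s in (0 : ℝ)..T, ‖F1 s‖ ^ 2) / ν with hI
  have hφi : ∀ t ∈ Ioo r τ, IntegrableOn (fun s => ‖F1 s‖ ^ 2 / ν) (Ioc r t) := fun t ht =>
    (hF2.mono_measure (Measure.restrict_mono (Ioc_subset_Ioc hr0.le (ht.2.le.trans hτT))
      le_rfl)).div_const ν
  have hφ2 : ∀ t ∈ Ioo r τ, ∫ s in r..t, ‖F1 s‖ ^ 2 / ν ≤ I := by
    intro t ht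
    rw [intervalIntegral.integral_div, hI]
    gcongr
    rw [intervalIntegral.integral_of_le ht.1.le, intervalIntegral.integral_of_le hT.le]
    exact setIntegral_mono_set hF2 (Eventually.of_forall fun s => by positivity)
      (Ioc_subset_Ioc hr0.le (ht.2.le.trans hτT)).eventuallyLE
  -- the differential inequality
  have hineq : ∀ᵐ s ∂(volume.restrict (Ioo r τ)), 2 * ⟪ζ1 s, ζ s⟫_ℝ
      ≤ (ρ / (τ - s) + Λ' s) * (c0 + ∫ x in r..s, 2 * ⟪ζ1 x, ζ x⟫_ℝ)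
        + (‖F1 s‖ ^ 2 / ν + 2 * σ / ν * (τ - s) ^ (-(1 / 2 : ℝ) - 1)) := by
    filter_upwards [ae_mono (Measure.restrict_mono (Ioo_subset_Ioo_left
        ((le_max_left t1 0).trans hrt1.le)) le_rfl) hyp,
      ae_mono (Measure.restrict_mono (Ioo_subset_Ioo_left hr0.le) le_rfl)
        (weak_ae Fr hτ hτT hF hS), ae_restrict_mem measurableSet_Ioo] with s h1 h2 hs
    have hp : 0 < τ - s := by linarith [hs.2]
    rw [hY s ⟨hs.1.le, hs.2⟩]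
    have hsT : s ∈ Icc 0 T := ⟨(hr0.trans hs.1).le, hs.2.le.trans hτT⟩
    have hzs := hz s hsT
    set Y := ‖ζ s‖ ^ 2 + M with hYd
    have hY0 : 0 ≤ Y := by positivity
    have hζY : ‖ζ s‖ ^ 2 ≤ Y := by linarith
    have e1 := h2.2 _ h2.1
    simp only at e1
    rw [real_inner_self_eq_norm_sq] at e1
    have e2 : 2 * ⟪ζ1 s, ζ s⟫_ℝ = 2 / ν * (-‖v1 s‖ ^ 2 + ⟪m (v s), z1 s⟫_ℝ)
        - 2 / ν * ⟪F1 s, ζ s⟫_ℝ := by
      have e3 : ζ s = ν⁻¹ • (ν • z s - F s) := by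
        rw [hζ, smul_sub, smul_smul, inv_mul_cancel₀ hν.ne', one_smul]
      have e4 : ⟪z1 s, ζ s⟫_ℝ = ν⁻¹ * (-‖v1 s‖ ^ 2 + ⟪m (v s), z1 s⟫_ℝ) := by
        rw [e3, inner_smul_right, real_inner_comm, inner_sub_left, e1, inner_add_left,
          inner_sub_left]
        ring
      have e5 : ⟪ζ1 s, ζ s⟫_ℝ = ⟪z1 s, ζ s⟫_ℝ - ν⁻¹ * ⟪F1 s, ζ s⟫_ℝ := by
        rw [hζ1]
        simp only
        rw [inner_sub_left, inner_smul_left]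
        simp
      rw [e5, e4]
      field_simp
    have e6 : -(2 / ν * ⟪F1 s, ζ s⟫_ℝ) ≤ 1 / ν * (‖F1 s‖ ^ 2 + ‖ζ s‖ ^ 2) := by
      have k1 := abs_real_inner_le_norm (F1 s) (ζ s)
      have k2 : -⟪F1 s, ζ s⟫_ℝ ≤ ‖F1 s‖ * ‖ζ s‖ := by linarith [neg_abs_le ⟪F1 s, ζ s⟫_ℝ]
      have k3 : 2 * (‖F1 s‖ * ‖ζ s‖) ≤ ‖F1 s‖ ^ 2 + ‖ζ s‖ ^ 2 := by
        nlinarith [sq_nonneg (‖F1 s‖ - ‖ζ s‖)]
      have k4 : 0 < 1 / ν := by positivity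
      calc -(2 / ν * ⟪F1 s, ζ s⟫_ℝ) = 1 / ν * (2 * -⟪F1 s, ζ s⟫_ℝ) := by ring
        _ ≤ 1 / ν * (‖F1 s‖ ^ 2 + ‖ζ s‖ ^ 2) := by
          refine mul_le_mul_of_nonneg_left ?_ k4.le
          linarith
    have e7 : (-(1 / 2 : ℝ) - 1) = (-(3 / 2) : ℝ) := by norm_num
    rw [e7]
    have hpm : 0 ≤ (τ - s) ^ (-(3 / 2) : ℝ) := Real.rpow_nonneg hp.le _
    have hcs : 0 ≤ k * ν / (4 * (τ - s)) + Λ s := by
      have := hΛ0 s
      positivity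
    have e8 : 2 / ν * (-‖v1 s‖ ^ 2 + ⟪m (v s), z1 s⟫_ℝ)
        ≤ 2 / ν * ((k * ν / (4 * (τ - s)) + Λ s) * ((1 + η) * Y) + σ * (τ - s) ^ (-(3 / 2) : ℝ)) := by
      refine mul_le_mul_of_nonneg_left (h1.trans ?_) (by positivity)
      have := mul_le_mul_of_nonneg_left hzs hcs
      linarith
    have e9 : 2 / ν * ((k * ν / (4 * (τ - s)) + Λ s) * ((1 + η) * Y)
        + σ * (τ - s) ^ (-(3 / 2) : ℝ)) = (ρ / (τ - s) + 2 / ν * (1 + η) * Λ s) * Y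
        + 2 * σ / ν * (τ - s) ^ (-(3 / 2) : ℝ) := by
      rw [hρ]; field_simp; ring
    have e10 : 1 / ν * (‖F1 s‖ ^ 2 + ‖ζ s‖ ^ 2) ≤ ‖F1 s‖ ^ 2 / ν + 1 / ν * Y := by
      have : 1 / ν * ‖ζ s‖ ^ 2 ≤ 1 / ν * Y := mul_le_mul_of_nonneg_left hζY (by positivity)
      have e : 1 / ν * (‖F1 s‖ ^ 2 + ‖ζ s‖ ^ 2) = ‖F1 s‖ ^ 2 / ν + 1 / ν * ‖ζ s‖ ^ 2 := by ring
      linarith
    rw [e2]
    simp only [hΛ']
    rw [e9] at e8
    linarith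
  have hbl := blow (τ := τ) (ρ := ρ) (q := 1 / 2) (σ := 2 * σ / ν) (c := c0) (r := r) (I := I) hρ0
    hρ2 (by positivity) hr.2 hc00 (f := fun s => 2 * ⟪ζ1 s, ζ s⟫_ℝ) (Λ := Λ')
    (φ := fun s => ‖F1 s‖ ^ 2 / ν) hΛ'0 (fun s => by positivity)
    (fun t ht => hΛ'i.mono_set fun x hx => ⟨hrt1.trans hx.1, hx.2.trans_lt ht.2⟩)
    (fun t ht => hs0I r hr t ht) hφi hφ2 (fun t ht => (hstr t ht).1) hineq
  -- near the singular time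
  set D := 2 * (c0 + I) * (τ - r) ^ ρ with hD
  have hI0 : 0 ≤ I := by
    rw [hI]
    have : 0 ≤ ∫ s in (0 : ℝ)..T, ‖F1 s‖ ^ 2 :=
      intervalIntegral.integral_nonneg hT.le fun s _ => by positivity
    positivity
  have hτr : 0 < τ - r := by linarith [hr.2]
  have hD0 : 0 ≤ D := by positivity
  have hν32 : 0 < ν ^ (3 / 2 : ℝ) := Real.rpow_pos_of_pos hν _
  have hlim : Tendsto (fun t => D * (τ - t) ^ (1 / 2 - ρ)) (𝓝[<] τ) (𝓝 0) := by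
    have h1 : Tendsto (fun t : ℝ => τ - t) (𝓝[<] τ) (𝓝 0) := by
      have : Tendsto (fun t : ℝ => τ - t) (𝓝 τ) (𝓝 (τ - τ)) :=
        (continuous_const.sub continuous_id).tendsto τ
      rw [sub_self] at this
      exact this.mono_left nhdsWithin_le_nhds
    have h2 := (h1.rpow_const (p := 1 / 2 - ρ) (Or.inr (by linarith))).const_mul D
    rw [Real.zero_rpow (by linarith), mul_zero] at h2
    exact h2
  have hev := hlim.eventually (gt_mem_nhds (show (0 : ℝ) < ν ^ (3 / 2 : ℝ) / (6 * c ^ 2) by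
    positivity))
  rw [eventually_nhdsWithin_iff] at hev
  obtain ⟨ε, hε, hball⟩ := Metric.eventually_nhds_iff.1 hev
  refine rate_grad Fr hm hν hτ hτT hF hS hκ hrate hU (t0 := max r (τ - ε))
    (max_lt hr.2 (by linarith)) ?_
  intro t ht
  have htr : t ∈ Ioo r τ := ⟨(le_max_left _ _).trans_lt ht.1, ht.2⟩
  have hp : 0 < τ - t := by linarith [ht.2]
  have hlt : τ - ε < t := (le_max_right _ _).trans_lt ht.1
  have h3 := hball (y := t) (by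
    rw [Real.dist_eq, abs_of_neg (by linarith)]
    linarith) ht.2
  have h4 := hbl t htr
  rw [hY t ⟨htr.1.le, htr.2⟩] at h4
  have h5 : (τ - t) ^ (-ρ) = (τ - t) ^ (1 / 2 - ρ) * (τ - t) ^ (-(1 / 2) : ℝ) := by
    rw [← Real.rpow_add hp]; congr 1; ring
  have hpm : 0 < (τ - t) ^ (-(1 / 2) : ℝ) := Real.rpow_pos_of_pos hp _
  have h6 : 2 * (2 * σ / ν) / (1 / 2 - ρ) ≤ ν ^ (3 / 2 : ℝ) / (6 * c ^ 2) := by
    have hq : 0 < 1 / 2 - ρ := by linarith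
    have e52 : ν ^ (5 / 2 : ℝ) = ν ^ (3 / 2 : ℝ) * ν := by
      conv_rhs => rw [← Real.rpow_one ν, ← Real.rpow_mul hν.le, ← Real.rpow_add hν]
      norm_num
    rw [e52] at hσ
    rw [div_le_div_iff₀ hq (by positivity)]
    have a1 : 2 * (2 * σ / ν) * (6 * c ^ 2) = (96 * c ^ 2 * σ) / (4 * ν) := by
      field_simp; ring
    rw [a1, div_le_iff₀ (by positivity)]
    have a2 : (1 - k) / 4 * (4 * ν) ≤ (1 / 2 - ρ) * (4 * ν) :=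
      mul_le_mul_of_nonneg_right hρ1 (by positivity)
    have a3 : (1 - k) * (ν ^ (3 / 2 : ℝ) * ν) = ν ^ (3 / 2 : ℝ) * ((1 - k) / 4 * (4 * ν)) := by ring
    calc 96 * c ^ 2 * σ ≤ ν ^ (3 / 2 : ℝ) * ((1 - k) / 4 * (4 * ν)) := by rw [← a3]; exact hσ
      _ ≤ ν ^ (3 / 2 : ℝ) * ((1 / 2 - ρ) * (4 * ν)) := mul_le_mul_of_nonneg_left a2 hν32.le
      _ = _ := by ring
  have h7 : ‖ζ t‖ ^ 2 + M ≤ ν ^ (3 / 2 : ℝ) / (3 * c ^ 2) * (τ - t) ^ (-(1 / 2) : ℝ) := by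
    have b1 : D * (τ - t) ^ (-ρ) ≤ ν ^ (3 / 2 : ℝ) / (6 * c ^ 2) * (τ - t) ^ (-(1 / 2) : ℝ) := by
      rw [h5, ← mul_assoc]
      exact mul_le_mul_of_nonneg_right h3.le hpm.le
    have b2 := mul_le_mul_of_nonneg_right h6 hpm.le
    have b3 : ν ^ (3 / 2 : ℝ) / (3 * c ^ 2) = ν ^ (3 / 2 : ℝ) / (6 * c ^ 2)
        + ν ^ (3 / 2 : ℝ) / (6 * c ^ 2) := by field_simp; norm_num
    rw [b3, add_mul]
    linarith
  have htT : t ∈ Icc 0 T := ⟨(hr0.trans htr.1).le, htr.2.le.trans hτT⟩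
  have h8 : ‖z t‖ ^ 2 ≤ 3 / 2 * (ν ^ (3 / 2 : ℝ) / (3 * c ^ 2) * (τ - t) ^ (-(1 / 2) : ℝ)) := by
    refine (hz t htT).trans ?_
    have : 0 ≤ ‖ζ t‖ ^ 2 + M := by positivity
    calc (1 + η) * (‖ζ t‖ ^ 2 + M) ≤ 3 / 2 * (‖ζ t‖ ^ 2 + M) :=
          mul_le_mul_of_nonneg_right (by linarith) this
      _ ≤ _ := by linarith
  have h9 : ‖z t‖ ^ 2 ≤ ν ^ (3 / 2 : ℝ) / (2 * c ^ 2) * (τ - t) ^ (-(1 / 2) : ℝ) := by
    refine h8.trans (le_of_eq ?_)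
    field_simp
  have h10 : ‖z t‖ ^ 4 ≤ ν ^ 3 / (4 * c ^ 4) * (τ - t)⁻¹ := by
    have d1 := pow_le_pow_left₀ (sq_nonneg ‖z t‖) h9 2
    have d2 : (ν ^ (3 / 2 : ℝ)) ^ 2 = ν ^ 3 := by
      rw [← Real.rpow_natCast, ← Real.rpow_mul hν.le, ← Real.rpow_natCast]
      norm_num
    have d3 : ((τ - t) ^ (-(1 / 2) : ℝ)) ^ 2 = (τ - t)⁻¹ := by
      rw [← Real.rpow_natCast, ← Real.rpow_mul hp.le, ← Real.rpow_neg_one]
      norm_num
    calc ‖z t‖ ^ 4 = (‖z t‖ ^ 2) ^ 2 := by ring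
      _ ≤ _ := d1
      _ = _ := by rw [mul_pow, div_pow, d2, d3]; ring
  calc 4 * (c ^ 4 * ‖z t‖ ^ 4) * (τ - t)
      ≤ 4 * (c ^ 4 * (ν ^ 3 / (4 * c ^ 4) * (τ - t)⁻¹)) * (τ - t) := by gcongr
    _ = ν ^ 3 := by field_simp

end Pool.Agent.N327.LE
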