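import Pool.Agent.N327.LE.Core2
import Pool.Agent.N327.LE.Conv

/-!
The criterion for the angle between the Eulerian and the Lagrangian acceleration, internal form.
-/

set_option autoImplicit false
set_option linter.unusedSectionVars false

open MeasureTheory Set Filter Topology
open scoped InnerProductSpace ENNReal ContDiff NNReal

namespace Pool.Agent.N327.LE

open H772R2.NS H772R2.NS.Pub H772R2.NSR H772R2.NSG
open Pool.Agent.W795.TQ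
open Pool.Agent.Y303.RA (Hom hom_tensL rate)
open Pool.Agent.N327.AC (mem_ae)

variable {Ω : Set E3}

/-- the production of enstrophy -/
theorem prod_le {C : ℝ} (Fr : Frame (graphW Ω) (tensL (Ω := Ω)) C) (hΩ : MeasurableSet Ω)
    {p q : L2V Ω × L2M Ω} (hp : p ∈ graphW Ω) (hq : q ∈ graphW Ω) {P : E3 → E3}
    (hP : MemLp P (6 / 5) (volume.restrict Ω))
    (h0 : ∀ ψ : E3 → E3, H772R2.NS.IsTest Ω ψ → ∫ x in Ω, ⟪P x, ψ x⟫_ℝ = 0) {g : E3 → ℝ}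
    (hg : AEStronglyMeasurable g (volume.restrict Ω)) {c G : ℝ} (hG : 0 ≤ G)
    (hgG : eLpNorm g 1 (volume.restrict Ω) ≤ ENNReal.ofReal G)
    (hle : ∀ᵐ x ∂(volume.restrict Ω), -(c * ‖p.2 x‖ ^ 2 + g x)
      ≤ ⟪q.1 x, q.1 x + mv (p.2 x) (p.1 x) + P x⟫_ℝ) :
    -‖q.1‖ ^ 2 + ⟪tensL p.1, q.2⟫_ℝ ≤ c * ‖p.2‖ ^ 2 + G := by
  obtain ⟨i1, e1⟩ := tri_conv Fr hΩ hp hq
  obtain ⟨i2, e2⟩ := grad_orth hΩ hP h0 hq
  have i3 : Integrable (fun x => ‖q.1 x‖ ^ 2) (volume.restrict Ω) :=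
    (memLp_two_iff_integrable_sq_norm (Lp.aestronglyMeasurable q.1)).mp (Lp.memLp q.1)
  have e3 : ‖q.1‖ ^ 2 = ∫ x in Ω, ‖q.1 x‖ ^ 2 := by
    rw [← real_inner_self_eq_norm_sq, L2.inner_def]
    refine integral_congr_ae (Eventually.of_forall fun x => ?_)
    simp only
    rw [real_inner_self_eq_norm_sq]
  have i4 : Integrable (fun x => ‖p.2 x‖ ^ 2) (volume.restrict Ω) :=
    (memLp_two_iff_integrable_sq_norm (Lp.aestronglyMeasurable p.2)).mp (Lp.memLp p.2)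
  have e4 : ‖p.2‖ ^ 2 = ∫ x in Ω, ‖p.2 x‖ ^ 2 := by
    rw [← real_inner_self_eq_norm_sq, L2.inner_def]
    refine integral_congr_ae (Eventually.of_forall fun x => ?_)
    simp only
    rw [real_inner_self_eq_norm_sq]
  have i5 : Integrable g (volume.restrict Ω) :=
    memLp_one_iff_integrable.1 ⟨hg, hgG.trans_lt ENNReal.ofReal_lt_top⟩
  have n5 : ∫ x in Ω, g x ≤ G := by
    have h1 : ∫ x in Ω, g x ≤ ∫ x in Ω, ‖g x‖ :=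
      integral_mono i5 i5.norm fun x => Real.le_norm_self _
    refine h1.trans ?_
    rw [integral_norm_eq_lintegral_enorm hg, ← eLpNorm_one_eq_lintegral_enorm]
    exact ENNReal.toReal_le_of_le_ofReal hG hgG
  have i6 : Integrable (fun x => ‖q.1 x‖ ^ 2 + ⟪q.1 x, mv (p.2 x) (p.1 x)⟫_ℝ)
    (volume.restrict Ω) := i3.add i1
  have i7 : Integrable (fun x => ‖q.1 x‖ ^ 2 + ⟪q.1 x, mv (p.2 x) (p.1 x)⟫_ℝ
    + ⟪P x, q.1 x⟫_ℝ) (volume.restrict Ω) := i6.add i2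
  have i8 : Integrable (fun x => c * ‖p.2 x‖ ^ 2 + g x) (volume.restrict Ω) :=
    (i4.const_mul c).add i5
  have key : -(∫ x in Ω, (c * ‖p.2 x‖ ^ 2 + g x)) ≤ ∫ x in Ω, (‖q.1 x‖ ^ 2
      + ⟪q.1 x, mv (p.2 x) (p.1 x)⟫_ℝ + ⟪P x, q.1 x⟫_ℝ) := by
    rw [← integral_neg]
    refine integral_mono_ae i8.neg i7 ?_
    filter_upwards [hle] with x hx
    refine hx.trans (le_of_eq ?_)
    rw [inner_add_right, inner_add_right, real_inner_self_eq_norm_sq, real_inner_comm (P x)]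
  rw [integral_add i6 i2, integral_add i3 i1, e2, integral_add (i4.const_mul c) i5,
    integral_const_mul, ← e3, ← e4] at key
  rw [e1]
  linarith

theorem mid (hit : S_iter) (hode : S_ode) (htp : S_dtp) (he1 : S_est1) (he2 : S_est2)
    (hloc : S_loc) (huni : S_uni) (hun : S_univ) {k : ℝ} (hk0 : 0 ≤ k) (hk1 : k < 1) :
    ∃ κ : ℝ, 0 < κ ∧
    ∀ (Ω : Set E3), IsOpen Ω → Bornology.IsBounded Ω → ∀ (ν T : ℝ), 0 < ν → 0 < T →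
    ∀ (F F' : ℝ → L2M Ω), MemLp F' 2 (volume.restrict (Ioc 0 T)) →
    (∀ a b, 0 ≤ a → a ≤ b → b ≤ T → F b - F a = ∫ s in a..b, F' s) →
    ∀ (u : ℝ → L2V Ω) (z : ℝ → L2M Ω), AEStronglyMeasurable u (volume.restrict (Ioc 0 T)) →
    (∀ᵐ t ∂(volume.restrict (Ioc 0 T)), (u t, z t) ∈ graphW Ω) →
    MemLp z 2 (volume.restrict (Ioc 0 T)) →
    (∀ φ : E3 → E3, H772R2.NS.IsTest Ω φ → ∀ t ∈ Icc 0 T,
      (∫ x in (show Set R3 from Ω), ⟪L2.fn (Ω := Ω) (E := R3) (u t) x, (φ : R3 → R3) x⟫_ℝ)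
        - (∫ x in (show Set R3 from Ω), ⟪L2.fn (Ω := Ω) (E := R3) (u 0) x, (φ : R3 → R3) x⟫_ℝ)
      = ∫ s in (0 : ℝ)..t, Pub.rhs (Ω := Ω) ν (u s) (z s) (F s) φ) →
    (∀ t ∈ Icc 0 T, ‖u t‖ ^ 2 / 2 + ν * (∫ s in (0 : ℝ)..t, ‖z s‖ ^ 2)
      ≤ ‖u 0‖ ^ 2 / 2 + ∫ s in (0 : ℝ)..t, ⟪F s, z s⟫_ℝ) →
    ∀ z0 : L2M Ω, (u 0, z0) ∈ graphW Ω →
    (∃ h : L2V Ω, ∀ φ : E3 → E3, H772R2.NS.IsTest Ω φ →
      Pub.rhs (Ω := Ω) ν (u 0) z0 (F 0) φ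
        = ∫ x in (show Set R3 from Ω), ⟪L2.fn (Ω := Ω) (E := R3) h x, (φ : R3 → R3) x⟫_ℝ) →
    (∃ u' G1 G', IsStrong (show Set R3 from Ω) ν T F u u' G1 G') ∨
    ∃ τ ∈ Ioc 0 T, ∃ (u' : ℝ → L2V Ω) (G1 G' : ℝ → L2M Ω),
      (∀ t ∈ Ioo 0 τ, IsStrong (show Set R3 from Ω) ν t F u u' G1 G') ∧
      ∀ (Λ : ℝ → ℝ) (t1 : ℝ), (∀ t, 0 ≤ Λ t) → t1 < τ → IntegrableOn Λ (Ioo t1 τ) →
        ¬ ∀ᵐ t ∂(volume.restrict (Ioo t1 τ)), ∃ (P : E3 → E3) (g : E3 → ℝ),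
          MemLp P (6 / 5) ((volume : Measure E3).restrict Ω) ∧
          (∀ ψ : E3 → E3, H772R2.NS.IsTest Ω ψ → ∫ x in Ω, ⟪P x, ψ x⟫_ℝ = 0) ∧
          AEStronglyMeasurable g ((volume : Measure E3).restrict Ω) ∧
          eLpNorm g 1 ((volume : Measure E3).restrict Ω)
            ≤ ENNReal.ofReal (κ * ν ^ (5 / 2 : ℝ) * (τ - t) ^ (-(3 / 2) : ℝ)) ∧
          ∀ᵐ x ∂((volume : Measure E3).restrict Ω),
            -((k * ν / (4 * (τ - t)) + Λ t) * ‖G1 t x‖ ^ 2 + g x) ≤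
              ⟪u' t x, u' t x + mv (G1 t x) (u t x) + P x⟫_ℝ := by
  obtain ⟨c, hc, hU⟩ := hun
  obtain ⟨κ₀, hκ₀, hrate⟩ := rate hit hode htp he1 he2 hloc huni c hc
  have h1k : 0 < 1 - k := by linarith
  refine ⟨(1 - k) / (96 * c ^ 2), by positivity, ?_⟩
  intro Ω hΩ hb ν T hν hT F F' hF1 hF u z hmeas hmem hz2 heqn hen z0 h0 hg
  obtain ⟨C, Fr⟩ := exists_frame hΩ hb
  obtain ⟨g0, hg0⟩ := hg
  have hm : MeasurableSet Ω := hΩ.measurableSet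
  have hcomp : ∀ p ∈ graphW Ω, ⟪F 0 - ν • z0 + tensL (u 0), p.2⟫_ℝ = ⟪g0, p.1⟫_ℝ := by
    refine compat_ext ?_
    rintro p ⟨φ, k1, k2, k3⟩
    rw [← pub_rhs hm ν (F 0) h0 k3, ← pub_inner (Ω := Ω) g0 k2]
    exact hg0 φ k1
  have hFc : ContinuousOn F (Icc 0 T) := prim_cont hF1 hF
  have hLH := lh_mid hΩ hFc Fr hmeas hmem hz2 heqn hen
  rcases hrate (L2V Ω) (L2M Ω) (graphW Ω) tensL C ν T F F' (u 0) g0 z0 u z Fr (hU _ hΩ)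
    (rellich_W hΩ hb) hν hT ⟨hF1, hF⟩ h0 hcomp hLH with ⟨w, w1, y, y1, k1, k2⟩ | ⟨τ, hτ, k1, _, k3⟩
  · exact Or.inl ⟨w1, y, y1, strong_of_str hΩ hT k1 k2⟩
  refine Or.inr ⟨τ, hτ, deriv u, gz (graphW Ω) u, deriv (gz (graphW Ω) u),
    fun t ht => strong_of_str hΩ ht.1 (k1 t ht) fun _ _ => rfl, ?_⟩
  intro Λ t1 hΛ0 ht1 hΛi hyp
  have hν52 : 0 < ν ^ (5 / 2 : ℝ) := Real.rpow_pos_of_pos hν _
  have ht2 : max t1 0 < τ := max_lt ht1 hτ.1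
  have hmem2 := mem_ae hτ.1 k1
  refine core2 Fr (hom_tensL hm) hν hτ.1 hτ.2 ⟨hF1, hF⟩ k1 hκ₀ k3 (hU _ hΩ) (k := k)
    (σ := (1 - k) / (96 * c ^ 2) * ν ^ (5 / 2 : ℝ)) (t1 := max t1 0) hk0 hk1 (by positivity)
    (le_of_eq (by field_simp)) ht2 (Λ := Λ) hΛ0
    (hΛi.mono_set (Ioo_subset_Ioo_left (le_max_left _ _))) ?_
  filter_upwards [ae_mono (Measure.restrict_mono (Ioo_subset_Ioo_left (le_max_left _ _)) le_rfl) hyp,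
    ae_mono (Measure.restrict_mono (Ioo_subset_Ioo_left (le_max_right _ _)) le_rfl) hmem2,
    ae_restrict_mem measurableSet_Ioo] with t h1 h2 htI
  obtain ⟨P, g, e1, e2, e3, e4, e5⟩ := h1
  have hp : 0 < τ - t := by linarith [htI.2]
  have hp32 : 0 ≤ (τ - t) ^ (-(3 / 2) : ℝ) := Real.rpow_nonneg hp.le _
  exact prod_le Fr hm (p := (u t, gz (graphW Ω) u t))
    (q := (deriv u t, deriv (gz (graphW Ω) u) t)) h2.1 h2.2 e1 e2 e3 (by positivity) e4 e5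

end Pool.Agent.N327.LE
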